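import Mathlib
import Pool.Agent.X126.TriFree

namespace Pool.Agent.Results.MP_02bc1b_co.AllLargeOrders
open Pool.Agent.X126.Kloo Pool.Agent.X126.TriFree Pool.Agent.X126.TwoStage SimpleGraph

/-- `G` is `C_4`-saturated: it contains no four-cycle, but adding any missing edge creates one. -/
def Saturated {V : Type*} (G : SimpleGraph V) : Prop :=
  ¬ (cycleGraph 4) ⊑ G ∧
    ∀ u v : V, u ≠ v → ¬ G.Adj u v → (cycleGraph 4) ⊑ (G ⊔ SimpleGraph.edge u v)

/-- the number of (unlabelled) subgraphs of `G` isomorphic to the triangle `K_3` -/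
noncomputable def numK3 {V : Type*} (G : SimpleGraph V) : ℕ :=
  Nat.card {H : G.Subgraph // Nonempty (H.coe ≃g (⊤ : SimpleGraph (Fin 3)))}

/-- `sat(n, K_3, C_4)` -/
noncomputable def sat (n : ℕ) : ℕ :=
  sInf {c : ℕ | ∃ G : SimpleGraph (Fin n), Saturated G ∧ c = numK3 G}

theorem copy_of {V : Type*} {k : ℕ} (K : SimpleGraph V) (g : Fin (k + 2) → V)
    (hg : Function.Injective g) (h : ∀ a, K.Adj (g a) (g (a + 1))) :
    (cycleGraph (k + 2)) ⊑ K := by
  refine ⟨⟨⟨g, ?_⟩, hg⟩⟩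
  intro a b hab
  rw [cycleGraph_adj] at hab
  rcases hab with e | e
  · have : a = b + 1 := sub_eq_iff_eq_add'.1 e
    rw [this]
    exact (h b).symm
  · have : b = a + 1 := sub_eq_iff_eq_add'.1 e
    rw [this]
    exact h a

theorem of_copy {V : Type*} {k : ℕ} {K : SimpleGraph V} (h : (cycleGraph (k + 2)) ⊑ K) :
    ∃ g : Fin (k + 2) → V, Function.Injective g ∧ ∀ a, K.Adj (g a) (g (a + 1)) := by
  obtain ⟨f⟩ := h
  refine ⟨f.toHom, f.injective', fun a => f.toHom.map_adj ?_⟩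
  rw [cycleGraph_adj]
  exact Or.inr (add_sub_cancel_left a 1)

/-- From a finite relation to a triangle-free saturated graph on `n` vertices. -/
theorem build {W : Type} [Fintype W] [DecidableEq W] (R : W → W → Prop)
    (hirr : ∀ u, ¬ R u u) (hsym : ∀ u v, R u v → R v u)
    (h3 : ∀ u v w, R u v → R v w → R w u → False)
    (h4 : ∀ u0 u1 u2 u3, R u0 u1 → R u1 u2 → R u2 u3 → R u3 u0 → u0 ≠ u2 → u1 ≠ u3 → False)
    (A : Finset W) (hA : ∀ u v, u ≠ v → ¬ R u v → ∃ x ∈ A, ∃ y ∈ A, R u x ∧ R x y ∧ R y v)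
    (n : ℕ) (hn1 : A.card ≤ n) (hn2 : n ≤ Fintype.card W) :
    ∃ G : SimpleGraph (Fin n), Saturated G ∧ G.CliqueFree 3 := by
  obtain ⟨B, hAB, _, hB⟩ := Finset.exists_subsuperset_card_eq (Finset.subset_univ A) hn1
    (by rwa [Finset.card_univ])
  let e : B ≃ Fin n := Fintype.equivFinOfCardEq (by rw [Fintype.card_coe, hB])
  let φ : Fin n → W := fun i => (e.symm i : W)
  have hφ : Function.Injective φ := fun i j h => e.symm.injective (Subtype.ext h)
  have hφs : ∀ x ∈ A, ∃ i, φ i = x := fun x hx =>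
    ⟨e ⟨x, hAB hx⟩, by simp [φ]⟩
  let G : SimpleGraph (Fin n) :=
    { Adj := fun i j => R (φ i) (φ j)
      symm := ⟨fun i j h => hsym _ _ h⟩
      loopless := ⟨fun i h => hirr _ h⟩ }
  refine ⟨G, ⟨?_, ?_⟩, ?_⟩
  · intro hc
    obtain ⟨g, hg, ha⟩ := of_copy (k := 2) hc
    have r : ∀ a, R (φ (g a)) (φ (g (a + 1))) := fun a => ha a
    have ne : ∀ a b : Fin 4, a ≠ b → φ (g a) ≠ φ (g b) := fun a b h h' => h (hg (hφ h'))
    exact h4 _ _ _ _ (r 0) (r 1) (r 2) (r 3) (ne 0 2 (by decide)) (ne 1 3 (by decide))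
  · intro i j hij hadj
    have hR : ¬ R (φ i) (φ j) := hadj
    obtain ⟨x, mx, y, my, r1, r2, r3⟩ := hA _ _ (fun h => hij (hφ h)) hR
    obtain ⟨a, rfl⟩ := hφs x mx
    obtain ⟨b, rfl⟩ := hφs y my
    have e1 : i ≠ a := fun h => hirr _ (by rw [h] at r1; exact r1)
    have e2 : i ≠ b := fun h => hR (by rw [h]; exact r3)
    have e3 : a ≠ b := fun h => hirr _ (by rw [h] at r2; exact r2)
    have e4 : a ≠ j := fun h => hR (by rw [← h]; exact r1)
    have e5 : b ≠ j := fun h => hirr _ (by rw [h] at r3; exact r3)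
    apply copy_of (k := 2) _ ![i, a, b, j]
    · intro s t hst
      fin_cases s <;> fin_cases t <;> simp at hst ⊢ <;>
        first
        | exact absurd hst (by assumption)
        | exact absurd hst.symm (by assumption)
    · intro s
      fin_cases s
      · exact Or.inl r1
      · exact Or.inl r2
      · exact Or.inl r3
      · refine Or.inr ?_
        rw [edge_adj]
        exact ⟨Or.inr ⟨rfl, rfl⟩, hij.symm⟩
  · intro s hs
    rw [is3Clique_iff] at hs
    obtain ⟨a, b, c, h1, h2, h3', _⟩ := hs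
    exact h3 _ _ _ h1 h3' (hsym _ _ h2)

/-- the character from the absolute trace -/
noncomputable def trPsi (F : Type) [Field F] [Fintype F] [Algebra (ZMod 2) F] : Psi F where
  ψ x := if Algebra.trace (ZMod 2) F x = 0 then 1 else -1
  add x y := by
    rw [map_add]
    generalize Algebra.trace (ZMod 2) F x = a
    generalize Algebra.trace (ZMod 2) F y = b
    revert a b
    decide
  pm x := by
    by_cases h : Algebra.trace (ZMod 2) F x = 0
    · left; rw [if_pos h]
    · right; rw [if_neg h]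
  ex := by
    obtain ⟨x, hx⟩ := Algebra.trace_surjective (ZMod 2) F 1
    exact ⟨x, by rw [hx]; decide⟩

theorem growth (m : ℕ) (hm : 30 ≤ m) :
    8192 * (4 * m + 1) ^ 2 + 16 * (4 * m + 1) + 16384 * (4 * m + 1) ^ 2 ≤ 2 ^ m := by
  obtain ⟨k, rfl⟩ : ∃ k, m = k + 30 := ⟨m - 30, by omega⟩
  clear hm
  induction k with
  | zero => norm_num
  | succ k ih =>
    have h2 : 2 ^ (k + 1 + 30) = 2 * 2 ^ (k + 30) := by ring
    rw [h2]
    refine le_trans ?_ (Nat.mul_le_mul_left 2 ih)
    nlinarith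

theorem main (n : ℕ) (hn : 2 ^ 57 ≤ n) :
    ∃ G : SimpleGraph (Fin n), Saturated G ∧ G.CliqueFree 3 := by
  classical
  have hex : ∃ e : ℕ, n ≤ 2 ^ (2 * e + 59) := by
    refine ⟨n, (Nat.lt_two_pow_self (n := n)).le.trans ?_⟩
    exact Nat.pow_le_pow_right (by norm_num) (by omega)
  obtain ⟨e, he1, he2⟩ : ∃ e : ℕ, n ≤ 2 ^ (2 * e + 59) ∧ 2 ^ (2 * e + 57) ≤ n := by
    refine ⟨Nat.find hex, Nat.find_spec hex, ?_⟩
    rcases Nat.eq_zero_or_pos (Nat.find hex) with h | h
    · rw [h]; exact hn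
    · have := Nat.find_min hex (m := Nat.find hex - 1) (by omega)
      rw [not_le] at this
      refine le_trans (Nat.pow_le_pow_right (by norm_num) (by omega)) this.le
  let m := e + 30
  have hm0 : m ≠ 0 := by omega
  let F := GaloisField 2 m
  have : Fintype F := Fintype.ofFinite F
  have hq : Fintype.card F = 2 ^ m := by
    rw [← Nat.card_eq_fintype_card]
    exact GaloisField.card 2 m hm0
  have hgr := growth m (by omega)
  set t := 4 * m + 1 with ht
  let P : Psi F := trPsi F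
  -- number of vertices
  have hneg : 2 * Fintype.card {r : F // P.ψ r = -1} = 2 ^ m := by
    have h1 := P.sum_zero (c := 1) one_ne_zero
    simp only [mul_one] at h1
    have h2 : ∀ x : F, P.ψ x = 1 - 2 * (if P.ψ x = -1 then 1 else 0) := by
      intro x
      rcases P.pm x with h | h <;> rw [h] <;> norm_num
    rw [Finset.sum_congr rfl (fun x _ => h2 x), Finset.sum_sub_distrib, ← Finset.mul_sum,
      Finset.sum_boole] at h1
    rw [Fintype.card_subtype, ← hq]
    simp only [Finset.sum_const, Finset.card_univ, nsmul_eq_mul, mul_one] at h1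
    omega
  have : Fintype (W P) := inferInstanceAs (Fintype ({r : F // P.ψ r = -1} × F))
  have : DecidableEq (W P) := Classical.decEq _
  have hW : Fintype.card (W P) = 2 ^ (2 * m - 1) := by
    have h1 : Fintype.card (W P) = Fintype.card {r : F // P.ψ r = -1} * 2 ^ m := by
      rw [← hq, ← Fintype.card_prod]
      exact Fintype.card_congr (Equiv.refl _)
    have h2 : 2 * Fintype.card (W P) = 2 * 2 ^ (2 * m - 1) := by
      rw [h1, ← mul_assoc, hneg, ← pow_add, ← pow_succ']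
      congr 1; omega
    omega
  let Ω := {p : W P × W P // p.1 ≠ p.2 ∧ ¬ R P p.1 p.2}
  have hΩ : Fintype.card Ω < 2 ^ t := by
    calc Fintype.card Ω ≤ Fintype.card (W P × W P) := Fintype.card_subtype_le _
      _ = 2 ^ ((2 * m - 1) + (2 * m - 1)) := by rw [Fintype.card_prod, hW, ← pow_add]
      _ < 2 ^ t := Nat.pow_lt_pow_right (by norm_num) (by omega)
  have hq64 : 64 ≤ Fintype.card F := by
    rw [hq]
    calc 64 = 2 ^ 6 := by norm_num
      _ ≤ _ := Nat.pow_le_pow_right (by norm_num) (by omega)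
  choose Z hZ1 hZ2 using fun ω : Ω => count P ω.1.1 ω.1.2 ω.2.2 ω.2.1 hq64
  obtain ⟨A, hA1, hA2⟩ := two_stage (fun ω : Ω => Rel P ω.1.1 ω.1.2) t hΩ (by omega)
    (by rw [hq]; nlinarith) Z hZ1 hZ2 (fun ω x x' y h h' => uniq P ω.2.2 h h')
  have hAc : A.card ≤ 2 ^ (m - 3) := by
    have h1 : 2 ^ m = 2 ^ (m - 3) * 8 := by
      rw [show (8 : ℕ) = 2 ^ 3 by norm_num, ← pow_add, Nat.sub_add_cancel (by omega)]
    rw [hq] at hA1
    have h2 : 2 ^ m / (16 * t) * (16 * t) ≤ 2 ^ m := Nat.div_mul_le_self _ _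
    nlinarith
  let B : Finset (W P) := Finset.univ.filter (fun w : W P => w.1.1 ∈ A)
  have hB : B.card ≤ 2 ^ (2 * e + 57) := by
    have h1 : B.card ≤ (A ×ˢ (Finset.univ : Finset F)).card := by
      apply Finset.card_le_card_of_injOn (fun w : W P => ((w.1.1, w.2) : F × F))
      · intro w hw
        have := (Finset.mem_filter.1 (Finset.mem_coe.1 hw)).2
        simp only [Finset.coe_product, Set.mem_prod, Finset.mem_coe]
        exact ⟨this, Finset.mem_univ _⟩
      · intro w _ w' _ h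
        simp only [Prod.mk.injEq] at h
        exact Prod.ext (Subtype.ext h.1) h.2
    rw [Finset.card_product, Finset.card_univ, hq] at h1
    calc B.card ≤ _ := h1
      _ ≤ 2 ^ (m - 3) * 2 ^ m := Nat.mul_le_mul_right _ hAc
      _ = 2 ^ (2 * e + 57) := by rw [← pow_add]; congr 1; omega
  refine build (R P) (R.irrefl P) (fun _ _ h => R.symm P h) (fun _ _ _ => no3 P)
    (fun _ _ _ _ => no4 P) B ?_ n (hB.trans he2) ?_
  · intro u v hne huv
    obtain ⟨x, hx, y, hy, hr⟩ := hA2 ⟨(u, v), hne, huv⟩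
    obtain ⟨a, b, ha, hb, r1, r2, r3⟩ := path3 P hr
    exact ⟨a, Finset.mem_filter.2 ⟨Finset.mem_univ _, by rw [ha]; exact hx⟩, b,
      Finset.mem_filter.2 ⟨Finset.mem_univ _, by rw [hb]; exact hy⟩, r1, r2, r3⟩
  · rw [hW]
    refine he1.trans (Nat.pow_le_pow_right (by norm_num) ?_)
    omega

theorem sat_eq_zero (n : ℕ) (hn : 2 ^ 57 ≤ n) : sat n = 0 := by
  obtain ⟨G, hG, h3⟩ := main n hn
  have h0 : numK3 G = 0 := by
    unfold numK3
    have : IsEmpty {H : G.Subgraph // Nonempty (H.coe ≃g (⊤ : SimpleGraph (Fin 3)))} := by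
      refine ⟨fun H => ?_⟩
      obtain ⟨H, ⟨f⟩⟩ := H
      have hc : (⊤ : SimpleGraph (Fin 3)) ⊑ G :=
        ⟨⟨H.hom.comp f.symm.toHom, fun a b h => f.symm.injective (H.hom_injective h)⟩⟩
      exact hc.not_cliqueFree h3
    exact Nat.card_of_isEmpty
  exact Nat.le_zero.1 (Nat.sInf_le ⟨G, hG, h0.symm⟩)

/-- For every `n ≥ 2^57` there is a triangle-free `C_4`-saturated graph on `n` vertices;
hence `sat(n, K_3, C_4) = 0` for all these `n` and `sat(n, K_3, C_4) > 0` holds only for finitely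
many `n`: the answer to the question is no. -/
theorem result :
    (∀ n : ℕ, 2 ^ 57 ≤ n → ∃ G : SimpleGraph (Fin n), Saturated G ∧ G.CliqueFree 3) ∧
    (∀ n : ℕ, 2 ^ 57 ≤ n → sat n = 0) ∧
    ¬ {n : ℕ | 0 < sat n}.Infinite ∧
    ¬ {n : ℕ | ∀ G : SimpleGraph (Fin n), Saturated G → ¬ G.CliqueFree 3}.Infinite := by
  refine ⟨main, sat_eq_zero, ?_, ?_⟩
  · rw [Set.not_infinite]
    refine (Set.finite_Iio (2 ^ 57)).subset ?_
    intro n hn
    by_contra h
    have h1 := sat_eq_zero n (not_lt.1 h)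
    rw [Set.mem_ofPred_eq, h1] at hn
    exact lt_irrefl 0 hn
  · rw [Set.not_infinite]
    refine (Set.finite_Iio (2 ^ 57)).subset ?_
    intro n hn
    by_contra h
    obtain ⟨G, hG, h3⟩ := main n (not_lt.1 h)
    exact hn G hG h3

end Pool.Agent.Results.MP_02bc1b_co.AllLargeOrders
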